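import Pool.Agent.helper59.FI.SpecB2

/-!
# Row fib:CNJ of project fi (MP_baa4d7_al), block A2: conjugacy of maximal subpairs
-/

set_option autoImplicit false

namespace Pool.Agent.FI

open Pool.Agent.helper58.DC Pool.Agent.DI Pool.Agent.GR Pool.Agent.OB

theorem CNJ (hUNI : UNI_stmt) (hCNTL : CNTL_stmt) (hDFL : DFL_stmt) (hTPR : TPR_stmt) : CNJ_stmt := by
  intro p M hS G _ _ D x θ χ hRt P hP ψ hψ hθψ D₁ hD₁ hPD₁ hcard θ₁ hθ₁ hθ₁ψ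
  have hDL : cz D ≤ cz P := cz_mono hP
  have hD₁L : cz D₁ ≤ cz P := cz_mono hPD₁
  have h1 : SB M (cz P) θ₁ θ := hθ₁ψ.trans hθψ.symm
  have h2 : SB M ⊤ θ₁ θ := TRNb le_top (fun y hy => IrrOn_zero hθ₁ fun h => hy (hD₁L h))
    (fun y hy => IrrOn_zero hRt.th fun h => hy (hDL h)) h1
  have h3 : SB M ⊤ θ₁ χ := h2.trans ((SB_top_iff hS).2 hRt.ind)
  obtain ⟨g, -, hg⟩ := hCNTL p M hS G ⊤ D₁ hD₁ le_top θ₁ (by rw [top_inf_eq]; exact hθ₁) χ h3 D x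
    ((hTPR p M hS G).2.2.1 χ D x hRt.dfa)
  have hcom : ∀ c ∈ D₁, ∀ d ∈ D₁, c * d = d * c := by
    intro c hc d hd
    have h := hRt.com _ (hg c hc) _ (hg d hd)
    have e1 : g * c * g⁻¹ * (g * d * g⁻¹) = g * (c * d) * g⁻¹ := by group
    have e2 : g * d * g⁻¹ * (g * c * g⁻¹) = g * (d * c) * g⁻¹ := by group
    rw [e1, e2] at h
    exact mul_left_cancel (mul_right_cancel h)
  have hD₁P : D₁ ≤ cz P := (le_cz_of_com hcom).trans hD₁L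
  obtain ⟨x', -, -, hdl⟩ := hDFL p M hS G D x θ χ hRt P hP ψ hψ hθψ
  have e : cz P ⊓ cz D₁ = cz D₁ := inf_eq_right.2 hD₁L
  obtain ⟨l₀, hl₀, hl₀'⟩ := hCNTL p M hS G (cz P) D₁ hD₁ hD₁P θ₁ (by rw [e]; exact hθ₁) ψ hθ₁ψ D x' hdl
  have hcj : cj l₀ D₁ = D := by
    refine Subgroup.eq_of_le_of_card_ge (fun y hy => ?_) (by rw [card_cj, hcard])
    rw [mem_cj] at hy
    have h := hl₀' _ hy
    have e1 : l₀ * (l₀⁻¹ * y * l₀) * l₀⁻¹ = y := by group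
    rwa [e1] at h
  have hθ₂ : funMap (MulAut.conj l₀) θ₁ ∈ IrrOn (cz D) := by
    have h := IrrOn_funMap hθ₁ l₀
    rw [← cj_cz, hcj] at h
    exact h
  have h4 : SB M (cz P) (funMap (MulAut.conj l₀) θ₁) ψ := by
    have h := SB_conj hθ₁ψ l₀
    rw [cj_self hl₀, funMap_inner hψ hl₀] at h
    exact h
  obtain ⟨n, hn, hn', hn''⟩ := hUNI p M hS G D x θ χ hRt P hP ψ hψ hθψ _ hθ₂ h4
  refine ⟨n * l₀, (cz P).mul_mem hn hl₀, ?_, ?_⟩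
  · change cj (n * l₀) D₁ = D
    rw [cj_mul, hcj]
    exact cj_nz.2 hn'
  · rw [funMap_mul]
    exact hn''

end Pool.Agent.FI
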