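import Pool.Agent.helper83.FI.SpecR

/-!
# Row fib:TRP of project fi (MP_baa4d7_al), block R
-/

set_option autoImplicit false

namespace Pool.Agent.FI

open Pool.Agent.helper58.DC Pool.Agent.DI Pool.Agent.GR Pool.Agent.OB

theorem TRP (hPRJ : PRJ_stmt) : TRP_stmt := by
  intro p M hM G _ _ H i hi ψ ψ' hψ hψ' hv
  classical
  haveI := Fintype.ofFinite G
  have hS := Set.toFinite (H : Set G)
  have hmem : ∀ h, h ∈ hS.toFinset ↔ h ∈ H := fun h => by rw [Set.Finite.mem_toFinset]; rfl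
  have h1 : ∀ x, ∑ h ∈ hS.toFinset, i (h * x * h⁻¹) * (ψ x - ψ' x) = 0 := by
    intro x
    by_cases hx : x ∈ H
    · by_cases hr : PReg p x
      · refine Finset.sum_eq_zero fun h _ => ?_
        rw [hv x hx hr, sub_self, mul_zero]
      · rw [← Finset.sum_mul, ← finsum_mem_eq_finite_toFinset_sum _ hS, hPRJ p M hM G H i hi x hx hr, zero_mul]
    · refine Finset.sum_eq_zero fun h hh => ?_
      have hH : h ∈ H := (hmem h).1 hh
      have h0 : h * x * h⁻¹ ∉ H := by
        intro h2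
        apply hx
        have h3 : x = h⁻¹ * (h * x * h⁻¹) * h := by group
        rw [h3]
        exact H.mul_mem (H.mul_mem (H.inv_mem hH) h2) hH
      rw [hi.sup _ h0, zero_mul]
  have h2 : ∀ h ∈ hS.toFinset, ∑ x, i (h * x * h⁻¹) * (ψ x - ψ' x) = ∑ x, i x * (ψ x - ψ' x) := by
    intro h hh
    have hH : h ∈ H := (hmem h).1 hh
    rw [← Equiv.sum_comp (MulAut.conj h).toEquiv (fun x => i x * (ψ x - ψ' x))]
    refine Finset.sum_congr rfl fun x _ => ?_
    have e : (MulAut.conj h).toEquiv x = h * x * h⁻¹ := rfl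
    rw [e, hψ h hH x, hψ' h hH x]
  have h3 : (hS.toFinset.card : ℂ) * ∑ x, i x * (ψ x - ψ' x) = 0 := by
    calc (hS.toFinset.card : ℂ) * ∑ x, i x * (ψ x - ψ' x)
        = ∑ h ∈ hS.toFinset, ∑ x, i (h * x * h⁻¹) * (ψ x - ψ' x) := by
          rw [Finset.sum_congr rfl h2, Finset.sum_const, nsmul_eq_mul]
      _ = ∑ x, ∑ h ∈ hS.toFinset, i (h * x * h⁻¹) * (ψ x - ψ' x) := Finset.sum_comm
      _ = 0 := Finset.sum_eq_zero fun x _ => h1 x
  have h4 : ∑ x, i x * (ψ x - ψ' x) = 0 := by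
    rcases mul_eq_zero.1 h3 with h | h
    · exfalso
      have h5 : hS.toFinset.card = 0 := by exact_mod_cast h
      rw [Finset.card_eq_zero] at h5
      have h6 : (1 : G) ∈ hS.toFinset := (hmem 1).2 H.one_mem
      rw [h5] at h6
      exact absurd h6 (Finset.notMem_empty _)
    · exact h
  have e : ∀ φ : G → ℂ, ev φ i 1 = ∑ x, i x * φ x := by
    intro φ
    rw [ev, finsum_eq_sum_of_fintype]
    simp only [one_mul]
  rw [e, e, ← sub_eq_zero, ← Finset.sum_sub_distrib, ← h4]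
  exact Finset.sum_congr rfl fun x _ => by ring

end Pool.Agent.FI
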