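import Pool.Agent.helper70.FI.SpecQ1

/-!
# Row fib:QEI of project fi (MP_baa4d7_al), block Q1: the idempotent matrix EE
-/

set_option autoImplicit false

namespace Pool.Agent.FI

open Pool.Agent.helper58.DC Pool.Agent.DI Pool.Agent.GR Pool.Agent.OB

theorem QEI (hQIT : QIT_stmt) (hCHC : CHC_stmt) (hB2 : B2_stmt) : QEI_stmt := by
  intro p M hM G _ _ H S hS
  classical
  have hf : ({v : G | v ∈ H ∧ PReg p v}).Finite := Set.toFinite _
  have h3 : ∀ ψ ∈ IrrOn H, ∀ ψ' ∈ IrrOn H, EE p H ψ' ψ = (starRingEnd ℂ) (EE p H ψ ψ') := by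
    intro ψ hψ ψ' hψ'
    unfold EE
    rw [finsum_mem_eq_finite_toFinset_sum _ hf, finsum_mem_eq_finite_toFinset_sum _ hf, map_div₀, map_sum, map_natCast]
    congr 1
    refine Finset.sum_congr rfl fun v _ => ?_
    rw [map_mul, hCHC G H ψ hψ v, hCHC G H ψ' hψ' v⁻¹, inv_inv, mul_comm]
  have h4 : ∀ ψ ∈ IrrOn H, ∃ r : ℝ, 0 < r ∧ EE p H ψ ψ = r := by
    intro ψ hψ
    refine ⟨(∑ v ∈ hf.toFinset, ‖ψ v‖ ^ 2) / (Nat.card H : ℝ), ?_, ?_⟩
    · refine div_pos ?_ (by exact_mod_cast Nat.card_pos)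
      refine Finset.sum_pos' (fun v _ => by positivity) ⟨1, ?_, ?_⟩
      · rw [Set.Finite.mem_toFinset]
        refine ⟨H.one_mem, ?_⟩
        unfold PReg
        rw [orderOf_one]
        exact fun h => hM.pr.one_lt.ne' (Nat.dvd_one.1 h)
      · obtain ⟨⟨n, hn, e, -⟩, -⟩ := (hB2 G H).2 ψ hψ
        have h0 : ψ 1 ≠ 0 := by
          rw [e]
          exact_mod_cast hn.ne'
        have h1 : 0 < ‖ψ 1‖ := norm_pos_iff.2 h0
        positivity
    · unfold EE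
      rw [finsum_mem_eq_finite_toFinset_sum _ hf]
      push_cast
      congr 1
      refine Finset.sum_congr rfl fun v _ => ?_
      rw [← hCHC G H ψ hψ v, Complex.mul_conj, Complex.normSq_eq_norm_sq]
      push_cast
      rfl
  refine ⟨?_, ?_, h3, h4⟩
  · intro ψ hψ ψ'' hψ''
    have h := hQIT p M hM G H S hS ψ (hS.sub hψ) ψ'' (hS.sub hψ'')
    rw [if_pos hψ''] at h
    exact h
  · intro ψ hψ ψ' hψ' hn
    have hT : BC M H (IrrOn H \ S) := by
      refine ⟨fun φ hφ => hφ.1, fun φ hφ φ' hφ' hz => ⟨hφ', fun h => hφ.2 ?_⟩⟩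
      refine hS.closed φ' h φ hφ.1 fun z hz1 hz2 => ?_
      obtain ⟨c, hc, e⟩ := hz z hz1 hz2
      refine ⟨-c, M.neg_mem hc, ?_⟩
      push_cast
      rw [← e]
      ring
    have h := hQIT p M hM G H (IrrOn H \ S) hT ψ (hS.sub hψ) ψ (hS.sub hψ)
    rw [if_neg (fun h0 : ψ ∈ IrrOn H \ S => h0.2 hψ)] at h
    have hfin : (IrrOn H \ S).Finite := ((hB2 G H).1).subset Set.diff_subset
    rw [finsum_mem_eq_finite_toFinset_sum _ hfin] at h
    have h5 : ∀ φ ∈ hfin.toFinset, EE p H ψ φ * EE p H φ ψ = ((‖EE p H ψ φ‖ ^ 2 : ℝ) : ℂ) := by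
      intro φ hφ
      rw [Set.Finite.mem_toFinset] at hφ
      rw [h3 ψ (hS.sub hψ) φ hφ.1, Complex.mul_conj, Complex.normSq_eq_norm_sq]
    rw [Finset.sum_congr rfl h5, ← Complex.ofReal_sum] at h
    have h6 : ∑ φ ∈ hfin.toFinset, ‖EE p H ψ φ‖ ^ 2 = 0 := by exact_mod_cast h
    rw [Finset.sum_eq_zero_iff_of_nonneg fun φ _ => by positivity] at h6
    have h7 := h6 ψ' (by rw [Set.Finite.mem_toFinset]; exact ⟨hψ', hn⟩)
    have h8 : EE p H ψ ψ' = 0 := by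
      have := pow_eq_zero_iff (two_ne_zero) |>.1 h7
      exact norm_eq_zero.1 this
    refine ⟨h8, ?_⟩
    rw [h3 ψ (hS.sub hψ) ψ' hψ', h8, map_zero]

end Pool.Agent.FI
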